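import Pool.Agent.helper62.VD.SpecE2

/-!
# Row vde:SFN (MP_07c750_an): the uniform weak law is stable
-/

open MeasureTheory Filter Set Topology
open scoped ENNReal ContDiff InnerProductSpace

namespace Pool.Agent.VDE

open VD

noncomputable section

theorem SFN_cont {d : ℕ} {G : V d → V d →L[ℝ] V d} {Φ : ℝ → P d → P d} (hΦ : IsFlow G Φ) {h : V d → ℝ}
    (hh : Continuous h) : Continuous fun q : ℝ × P d => h (Φ q.1 q.2).1 :=
  hh.comp (continuous_fst.comp hΦ.smooth.continuous)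

theorem SFN_avc {d : ℕ} {G : V d → V d →L[ℝ] V d} {Φ : ℝ → P d → P d} (hΦ : IsFlow G Φ) {h : V d → ℝ}
    (hh : Continuous h) (T : ℝ) : Continuous (avV Φ h T) := by
  have h1 : Continuous (Function.uncurry fun (p : P d) (s : ℝ) => h (Φ s p).1) := by
    show Continuous fun q : P d × ℝ => h (Φ q.2 q.1).1
    exact (SFN_cont hΦ hh).comp (continuous_snd.prodMk continuous_fst)
  exact continuous_const.mul (intervalIntegral.continuous_parametric_intervalIntegral_of_continuous' h1 0 T)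

theorem SFN_meas {d : ℕ} {G : V d → V d →L[ℝ] V d} {Φ : ℝ → P d → P d} (hΦ : IsFlow G Φ) {h : V d → ℝ}
    (hh : Continuous h) (T e c : ℝ) {F0 : Set (V d)} (hF : MeasurableSet F0) :
    MeasurableSet {p : P d | p.1 ∈ F0 ∧ e ≤ |avV Φ h T p - c|} := by
  refine MeasurableSet.inter (measurable_fst hF) ?_
  exact measurableSet_le measurable_const ((SFN_avc hΦ hh T).sub continuous_const).abs.measurable

theorem SFN_av {d : ℕ} {G G' : V d → V d →L[ℝ] V d} {Φ Φ' : ℝ → P d → P d} (hΦ : IsFlow G Φ) (hΦ' : IsFlow G' Φ')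
    {h : V d → ℝ} (hh : Continuous h) {T δ : ℝ} (hT : 0 < T) (p p' : P d)
    (hb : ∀ t, 0 ≤ t → t ≤ T → |h (Φ' t p').1 - h (Φ t p).1| ≤ δ) : |avV Φ' h T p' - avV Φ h T p| ≤ δ := by
  have c1 : Continuous fun s : ℝ => h (Φ' s p').1 := (SFN_cont hΦ' hh).comp (continuous_id.prodMk continuous_const)
  have c2 : Continuous fun s : ℝ => h (Φ s p).1 := (SFN_cont hΦ hh).comp (continuous_id.prodMk continuous_const)
  unfold avV
  rw [← mul_sub, ← intervalIntegral.integral_sub (c1.intervalIntegrable _ _) (c2.intervalIntegrable _ _), abs_mul,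
    abs_of_pos (inv_pos.2 hT)]
  have h1 : ‖∫ s in (0 : ℝ)..T, (h (Φ' s p').1 - h (Φ s p).1)‖ ≤ δ * |T - 0| := by
    apply intervalIntegral.norm_integral_le_of_norm_le_const
    intro t ht
    rw [uIoc_of_le hT.le] at ht
    exact hb t ht.1.le ht.2
  rw [Real.norm_eq_abs, sub_zero, abs_of_pos hT] at h1
  calc T⁻¹ * |∫ s in (0 : ℝ)..T, (h (Φ' s p').1 - h (Φ s p).1)| ≤ T⁻¹ * (δ * T) :=
        mul_le_mul_of_nonneg_left h1 (inv_pos.2 hT).le
    _ = δ := by field_simp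

/-- uniform continuity near a compact set -/
theorem SFN_unif {d : ℕ} {h : V d → ℝ} (hh : Continuous h) {A : Set (V d)} (hA : IsCompact A) {ε : ℝ} (hε : 0 < ε) :
    ∃ η : ℝ, 0 < η ∧ ∀ x ∈ A, ∀ y : V d, ‖y - x‖ ≤ η → |h y - h x| ≤ ε := by
  have h1 := hA.uniformContinuousAt_of_continuousAt h (fun a _ => hh.continuousAt) (Metric.dist_mem_uniformity hε)
  obtain ⟨δ, hδ, h2⟩ := Metric.mem_uniformity_dist.1 h1
  refine ⟨δ / 2, by positivity, fun x hx y hy => ?_⟩
  have h3 : dist x y < δ := by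
    rw [dist_comm, dist_eq_norm]
    linarith
  have h4 : dist (h x) (h y) < ε := h2 h3 hx
  rw [dist_comm, Real.dist_eq] at h4
  exact h4.le

theorem SFN_proof (h1 : SER_stmt) (h2 : SNM_stmt) (h3 : SLF_stmt) (h4 : SGR_stmt) (h5 : SMS_stmt) (h6 : SMG_stmt) :
    SFN_stmt := by
  intro d Γ _ _ K F0 G Φ C dd hd hF hGV hSH h hh e v0 he hv0
  have hΦ := hF.flow
  have hG := hF.met
  have hK := hF.fdk.compact
  have hF0m := hF.fdx.meas
  have hF0K := hF.fdx.sub
  rcases eq_or_ne (volume F0) 0 with hvol | hvol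
  · -- a null set
    refine ⟨1, 0, 1, le_rfl, one_pos, fun G' Φ' hG' hΦ' _ => ?_⟩
    unfold UWLD
    rw [(h3 d G' hG').1 _ (SFN_meas hΦ' hh.cont _ _ _ hF0m)]
    have hsub : {p : P d | 0 < nrm G' p ∧ nrm G' p ≤ 1 ∧ dir G' p ∈
        {p : P d | p.1 ∈ F0 ∧ e ≤ |avV Φ' h ((1 : ℕ) : ℝ) p - mnV F0 G' h|}} ⊆ F0 ×ˢ (univ : Set (V d)) := by
      rintro p ⟨-, -, hp, -⟩
      exact ⟨hp, mem_univ _⟩
    refine (measure_mono hsub).trans ?_
    rw [Measure.volume_eq_prod, Measure.prod_prod, hvol, zero_mul]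
    exact bot_le
  · have hvol0 : 0 < volume F0 := pos_iff_ne_zero.2 hvol
    obtain ⟨T0, hT0, hU⟩ := h1 d Γ K F0 G Φ C dd hd hF hGV hSH h hh (e / 2) (v0 / 2 ^ d) (by positivity) (by positivity)
    have hU := hU T0 le_rfl
    have hT0' : (0 : ℝ) < T0 := by
      have : (1 : ℝ) ≤ T0 := by exact_mod_cast hT0
      linarith
    obtain ⟨n1, n2, n3, n4, n5⟩ := h2 d G hG
    set L : Set (P d) := {p : P d | p.1 ∈ K ∧ nrm G p ≤ 1} with hL
    have hLc : IsCompact L := n5 K hK 1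
    -- the orbits
    set A : Set (V d) := (fun q : ℝ × P d => (Φ q.1 q.2).1) '' (Icc (0 : ℝ) T0 ×ˢ L) with hA
    have hAc : IsCompact A := (isCompact_Icc.prod hLc).image (continuous_fst.comp hΦ.smooth.continuous)
    obtain ⟨η, hη, hunif⟩ := SFN_unif hh.cont hAc (by positivity : 0 < e / 8)
    obtain ⟨m, s1, hs1, hgr⟩ := h4 d G Φ L T0 η hG hΦ hLc hη
    obtain ⟨M, hM⟩ : ∃ M : ℝ, ∀ p ∈ L, ‖p‖ ≤ M := by
      obtain ⟨M, hM⟩ := hLc.isBounded.exists_norm_le
      exact ⟨M, hM⟩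
    set M' : ℝ := |M| + 1 with hM'
    have hM'0 : 0 < M' := by positivity
    set J : ℝ := 1 + (∫ x in F0, dens G x)⁻¹ with hJ
    have hJ1 : 1 ≤ J := by
      have : 0 ≤ (∫ x in F0, dens G x)⁻¹ := inv_nonneg.2 (integral_nonneg fun x => Real.sqrt_nonneg _)
      rw [hJ]
      linarith
    set η2 : ℝ := min (1 / 2) (min (s1 / (2 * M')) (e / (8 * J))) with hη2
    have hη2p : 0 < η2 := by
      rw [hη2]
      refine lt_min (by norm_num) (lt_min (by positivity) (by positivity))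
    have e1 : η2 ≤ 1 / 2 := min_le_left _ _
    have e2 : 2 * η2 * M' ≤ s1 := by
      have : η2 ≤ s1 / (2 * M') := (min_le_right _ _).trans (min_le_left _ _)
      rw [le_div_iff₀ (by positivity)] at this
      linarith
    have e3 : η2 * J ≤ e / 8 := by
      have : η2 ≤ e / (8 * J) := (min_le_right _ _).trans (min_le_right _ _)
      rw [le_div_iff₀ (by positivity)] at this
      linarith
    obtain ⟨s2, hs2, hst⟩ := h5 d G K η2 hG hK hη2p
    obtain ⟨R, hR⟩ := hK.isBounded.exists_norm_le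
    refine ⟨T0, max m ⌈R⌉₊, min s1 s2, hT0, lt_min hs1 hs2, fun G' Φ' hG' hΦ' hclose => ?_⟩
    have hcl1 : ∀ (n : ℕ) (x : V d), n ≤ 1 → ‖x‖ ≤ m → ‖iteratedFDeriv ℝ n (fun y => G y - G' y) x‖ ≤ s1 := by
      intro n x hn hx
      refine (hclose n x hn (hx.trans ?_)).trans (min_le_left _ _)
      exact_mod_cast le_max_left _ _
    have hcl2 : ∀ x ∈ K, ‖G x - G' x‖ ≤ s2 := by
      intro x hx
      have := hclose 0 x (by norm_num) ((hR x hx).trans ((Nat.le_ceil R).trans (by exact_mod_cast le_max_right _ _)))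
      rw [norm_iteratedFDeriv_zero] at this
      exact this.trans (min_le_right _ _)
    obtain ⟨hn, hmn⟩ := hst G' hG' hcl2
    have hmn' := hmn F0 h hF0m hF0K hvol0 hh.cont hh.bd
    have hgr' := hgr G' Φ' hG' hΦ' hcl1
    unfold UWLD at hU ⊢
    rw [(h3 d G' hG').1 _ (SFN_meas hΦ' hh.cont _ _ _ hF0m)]
    have hsub : {p : P d | 0 < nrm G' p ∧ nrm G' p ≤ 1 ∧ dir G' p ∈
        {p : P d | p.1 ∈ F0 ∧ e ≤ |avV Φ' h (T0 : ℝ) p - mnV F0 G' h|}} ⊆
        {p : P d | 0 < nrm G p ∧ nrm G p ≤ 2 ∧ dir G p ∈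
        {p : P d | p.1 ∈ F0 ∧ e / 2 ≤ |avV Φ h (T0 : ℝ) p - mnV F0 G h|}} := by
      rintro q ⟨hb0, hb1, hqF, hq⟩
      have hqF' : q.1 ∈ F0 := hqF
      have hqK : q.1 ∈ K := hF0K hqF'
      obtain ⟨l1, l2⟩ := hn q hqK
      have ha0 : 0 < nrm G q := by
        by_contra hcon
        push Not at hcon
        have : (1 + η2) * nrm G q ≤ 0 := mul_nonpos_of_nonneg_of_nonpos (by linarith) hcon
        linarith
      have ha2 : nrm G q ≤ 2 := by nlinarith
      have hdL : dir G q ∈ L := ⟨hqK, (n4 q ha0.ne').le⟩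
      -- the directions are close
      have hdir : ‖dir G' q - dir G q‖ ≤ s1 := by
        have f1 : dir G' q - dir G q = ((0 : V d), ((nrm G' q)⁻¹ - (nrm G q)⁻¹) • q.2) := by
          unfold dir
          rw [Prod.mk_sub_mk, sub_self, ← sub_smul]
        have f2 : ‖(nrm G q)⁻¹ • q.2‖ ≤ M' := by
          have g1 : ‖(dir G q).2‖ ≤ ‖dir G q‖ := norm_snd_le _
          have g2 := hM _ hdL
          have g3 := le_abs_self M
          have g4 : ‖(nrm G q)⁻¹ • q.2‖ = ‖(dir G q).2‖ := rfl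
          rw [g4, hM']
          linarith
        have f3 : ((nrm G' q)⁻¹ - (nrm G q)⁻¹) • q.2 = ((nrm G q - nrm G' q) / nrm G' q) • ((nrm G q)⁻¹ • q.2) := by
          rw [smul_smul]
          congr 1
          field_simp
        have f4 : |(nrm G q - nrm G' q) / nrm G' q| ≤ 2 * η2 := by
          rw [abs_div, abs_of_pos hb0, div_le_iff₀ hb0, abs_le]
          constructor <;> nlinarith
        rw [f1, Prod.norm_mk, norm_zero, f3, norm_smul, Real.norm_eq_abs]
        refine max_le hs1.le ?_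
        calc |(nrm G q - nrm G' q) / nrm G' q| * ‖(nrm G q)⁻¹ • q.2‖ ≤ 2 * η2 * M' :=
              mul_le_mul f4 f2 (norm_nonneg _) (by positivity)
          _ ≤ s1 := e2
      have hav : |avV Φ' h (T0 : ℝ) (dir G' q) - avV Φ h (T0 : ℝ) (dir G q)| ≤ e / 8 := by
        apply SFN_av hΦ hΦ' hh.cont hT0'
        intro t ht0 ht1
        have g1 := hgr' (dir G q) hdL (dir G' q) hdir t (by rw [abs_of_nonneg ht0]; exact ht1)
        apply hunif
        · exact ⟨(t, dir G q), ⟨⟨ht0, ht1⟩, hdL⟩, rfl⟩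
        · have g2 : ‖(Φ' t (dir G' q) - Φ t (dir G q)).1‖ ≤ ‖Φ' t (dir G' q) - Φ t (dir G q)‖ := norm_fst_le _
          exact g2.trans g1
      refine ⟨ha0, ha2, hqF', ?_⟩
      have hq' : e ≤ |avV Φ' h (T0 : ℝ) (dir G' q) - mnV F0 G' h| := hq
      have k1 := abs_sub_le (avV Φ' h (T0 : ℝ) (dir G' q)) (avV Φ h (T0 : ℝ) (dir G q)) (mnV F0 G' h)
      have k2 := abs_sub_le (avV Φ h (T0 : ℝ) (dir G q)) (mnV F0 G h) (mnV F0 G' h)
      have k3 : |mnV F0 G h - mnV F0 G' h| ≤ e / 8 := by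
        rw [abs_sub_comm]
        exact hmn'.trans e3
      linarith
    refine (measure_mono hsub).trans ?_
    have hfin : liou G {p : P d | p.1 ∈ F0 ∧ e / 2 ≤ |avV Φ h (T0 : ℝ) p - mnV F0 G h|} < ⊤ :=
      lt_of_le_of_lt hU ENNReal.ofReal_lt_top
    rw [(h3 d G hG).2.1 _ 0 2 (SFN_meas hΦ hh.cont _ _ _ hF0m) le_rfl (by norm_num) hfin]
    have hd0 : (0 : ℝ) ^ d = 0 := zero_pow (by omega)
    rw [hd0, sub_zero]
    calc ENNReal.ofReal (2 ^ d) * liou G {p : P d | p.1 ∈ F0 ∧ e / 2 ≤ |avV Φ h (T0 : ℝ) p - mnV F0 G h|}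
        ≤ ENNReal.ofReal (2 ^ d) * ENNReal.ofReal (v0 / 2 ^ d) := by gcongr
      _ = ENNReal.ofReal v0 := by
        rw [← ENNReal.ofReal_mul (by positivity)]
        congr 1
        field_simp

end

end Pool.Agent.VDE
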